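import Pool.Agent.H.MP_ec0ea5_pr.B

set_option autoImplicit false
open MeasureTheory Set

namespace Pool.Agent.Results.MP_ec0ea5_pr.Yes

noncomputable def powerBias (ψ : ℕ → ℝ) (μ : Measure ℝ) : Measure ℝ :=
  Measure.sum fun k => ENNReal.ofReal (ψ k / ∫ x, x ^ k ∂μ) •
    μ.withDensity fun x => ENNReal.ofReal (x ^ k)

noncomputable def betaLaw (w : ℝ) : Measure ℝ :=
  (volume.restrict (Ioo 0 1)).withDensity fun v => ENNReal.ofReal (w * v ^ (w - 1))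

def IsSolution (w : ℝ) (ψ : ℕ → ℝ) (μ : Measure ℝ) : Prop :=
  IsProbabilityMeasure μ ∧ μ (Iic 0) = 0 ∧ (∀ k, 0 < ψ k → Integrable (fun x => x ^ k) μ) ∧
    μ = ((betaLaw w).prod (powerBias ψ μ)).map fun p => p.1 * p.2

open Pool.Agent.H.MP_ec0ea5_pr in
theorem result (w : ℝ) (hw : 0 < w) (ψ : ℕ → ℝ) (h0 : ψ 0 = 0) (hψ : ∀ k, 0 ≤ ψ k)
    (hs : HasSum ψ 1) (μ ν : Measure ℝ) (hμ : IsSolution w ψ μ) (hν : IsSolution w ψ ν) :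
    ∃ c : ℝ, 0 < c ∧ ν = μ.map fun x => c * x := by
  obtain ⟨_, a1, a2, a3⟩ := hμ
  obtain ⟨_, b1, b2, b3⟩ := hν
  obtain ⟨Q, a, α, h1⟩ := nice hw hψ hs a1 a2 a3
  obtain ⟨R, b, β, h2⟩ := nice hw hψ hs b1 b2 b3
  exact uniq hw h0 hψ hs.summable h1 h2

end Pool.Agent.Results.MP_ec0ea5_pr.Yes
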